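import Pool.Agent.Helper80.AD.GoalsB

/-!
# Project AD (MP_6af536_nt), packet REL: the relation for the heights
-/

set_option autoImplicit false

open MvPolynomial Filter Topology

noncomputable section

namespace Pool.Agent.Helper20.AD

open Pool.Agent.Helper80.HD Pool.Agent.Helper80.AD

/-! ### elementary part -/

section abs

/-- the comparison at one absolute value -/
theorem step {L : Type} [Field L] {σ : Type} (hG : S_GNM) (ω : AbsoluteValue L ℝ) {m : ℕ}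
    (a : Fin (m + 1) → ℤ) {n : L} (hn : n ≠ 0) {A : Fin (m + 1) → L} (hA : ∀ i, A i ≠ 0)
    {NX SX : Fin (m + 1) → MvPolynomial σ L} (hX : ∀ i, NX i ≠ 0) (h1 : ∀ i, SX i = C (A i) * NX i)
    {e : ℝ} (h : Real.log (ω n) ≤ ∑ i, (a i : ℝ) * Real.log (gn ω (NX i)) + e) :
    Real.log (ω (n * ∏ i, A i ^ a i)) ≤ ∑ i, (a i : ℝ) * Real.log (gn ω (SX i)) + e := by
  obtain ⟨g1, -, g3, -, -, -⟩ := hG.2.1 L σ ω
  have e1 : ∀ i, Real.log (gn ω (SX i)) = Real.log (ω (A i)) + Real.log (gn ω (NX i)) := fun i => by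
    rw [h1, g3, Real.log_mul (ω.pos (hA i)).ne' (g1 _ (hX i)).ne']
  have e2 : Real.log (ω (n * ∏ i, A i ^ a i)) =
      Real.log (ω n) + ∑ i, (a i : ℝ) * Real.log (ω (A i)) := by
    have h2 : ∀ i ∈ (Finset.univ : Finset (Fin (m + 1))), ω (A i ^ a i) ≠ 0 := fun i _ =>
      (ω.pos (zpow_ne_zero _ (hA i))).ne'
    rw [map_mul, map_prod, Real.log_mul (ω.pos hn).ne' (Finset.prod_ne_zero_iff.mpr h2),
      Real.log_prod h2]
    congr 1
    refine Finset.sum_congr rfl fun i _ => ?_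
    rw [map_zpow₀, Real.log_zpow]
  rw [e2]
  simp only [e1, mul_add, Finset.sum_add_distrib]
  linarith

end abs

section loc

variable (K : Type) [Field K] [Algebra K ℂ]

/-- the inclusion `F → L(F)` -/
def phi (L F : IntermediateField K ℂ) : F →+* FF K L F where
  toFun x := ⟨x, IntermediateField.subset_adjoin L _ x.2⟩
  map_one' := rfl
  map_mul' _ _ := rfl
  map_zero' := rfl
  map_add' _ _ := rfl

theorem phi_coe (L F : IntermediateField K ℂ) (x : F) : ((phi K L F x : FF K L F) : ℂ) = x := rfl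

theorem nrm_toE {M : ℕ} (L F : IntermediateField K ℂ) (y : Fin (M + 1) → F) (q : Fin (M + 1))
    (hq : y q = 1) : toE (FF K L F) (nrm (cv y) q) = fun l => phi K L F (y l) := by
  funext l
  have h0 : nrm (cv y) q l = (y l : ℂ) := by
    show (y l : ℂ) / (y q : ℂ) = _
    rw [hq]
    show (y l : ℂ) / 1 = _
    rw [div_one]
  have h : nrm (cv y) q l ∈ FF K L F := by
    rw [h0]
    exact IntermediateField.subset_adjoin L _ (y l).2
  apply Subtype.ext
  unfold toE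
  rw [dif_pos h]
  exact h0

end loc

/-- the local inequalities -/
structure Loc {K : Type} [Field K] [Algebra K ℂ] {k M m : ℕ} (a : Fin (m + 1) → ℤ)
    (Γ : AbsoluteValue K ℝ → ℝ) (Γ' C₁ : ℝ) (t : ℤ) (u : Fin k × Fin (M + 1) → ℂ)
    (P : Fin (m + 1) → MvPolynomial (Fin (k + 1) × Fin (M + 1)) K) (δ : ℕ) (κ : LK K u) : Prop where
  ind : AlgebraicIndependent K u
  κ0 : κ ≠ 0
  δ1 : 1 ≤ δ
  b : ∀ i, bdeg 0 (P i) = δ
  na : ∀ ω : AbsoluteValue (LK K u) ℝ, IsNonarchimedean ω →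
    Real.log (ω κ) ≤ ∑ i, (a i : ℝ) * Real.log (gn ω (sub K (uL K u) (P i))) +
      δ * (t * Real.log (Γ (ω.comp (algebraMap K (LK K u)).injective)))
  ar : ∀ ι : LK K u →+* ℂ,
    Real.log (absC (ι κ)) ≤ ∑ i, (a i : ℝ) * Real.log (gn absC (map ι (sub K (uL K u) (P i)))) +
      δ * (t * Γ' + C₁)

theorem not_na {F : Type} [Field F] (ι : F →+* ℂ) : ¬ IsNonarchimedean (absC.comp ι.injective) := by
  intro h
  have h1 := h 1 1
  have h2 : (absC.comp ι.injective) (1 + 1 : F) = 2 := by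
    show ‖ι (1 + 1)‖ = 2
    rw [map_add, map_one]
    norm_num
  have h3 : (absC.comp ι.injective) (1 : F) = 1 := by
    show ‖ι 1‖ = 1
    rw [map_one, norm_one]
  rw [h2, h3, max_self] at h1
  norm_num at h1

theorem loc_of (hRL : S_RLOC) (hT : S_TOWER) (hG : S_GNM) (hNF : S_NF) (M m : ℕ) (a : Fin (m + 1) → ℤ) :
    ∃ C₁ : ℝ, 0 ≤ C₁ ∧ ∀ (K : Type) [Field K] [NumberField K] [Algebra K ℂ] (k : ℕ)
      (F : IntermediateField K ℂ) (Γ : AbsoluteValue K ℝ → ℝ) (Γ' : ℝ) (t : ℤ) (z : Fin k → BV F M)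
      (y : Fin (m + 1) → BV F M) (g : F), F.FG → Algebra.trdeg K F = k → g ≠ 0 →
      (∀ v : Place F, Real.log (v.1 g) ≤ ∑ i, (a i : ℝ) * hV F (y i) v + t * cst F Γ Γ' v) →
        ∃ (u : Fin k × Fin (M + 1) → ℂ) (δ : ℕ) (κ : LK K u),
          Loc a Γ Γ' C₁ t u (fun i => cyc K F
            (Fin.cons (cv (y i).1) (fun l => cv (z l).1) : Fin (k + 1) → Fin (M + 1) → ℂ)) δ κ := by
  obtain ⟨C₁, hC₁, hB⟩ := hRL M m a
  refine ⟨C₁, hC₁, fun K _ _ _ k F Γ Γ' t z y g hF htr hg hv => ?_⟩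
  obtain ⟨u, hu, hfd, hTw⟩ := hT K F k M (fun i => cv (z i).1) hF htr (fun i => (z i).2.1)
  have := hfd
  have hq : ∀ i, ∃ q, (y i).1 q = 1 := fun i => (y i).2.2
  choose q hq using hq
  have hT' : ∀ i, (∃ A : LK K u, A ≠ 0 ∧
      sub K (uL K u) (cyc K F (Fin.cons (cv (y i).1) (fun l => cv (z l).1) :
        Fin (k + 1) → Fin (M + 1) → ℂ)) =
        C A * normForm (LK K u) (FF K (LK K u) F) (fun l => phi K (LK K u) F ((y i).1 l))) ∧
      bdeg 0 (cyc K F (Fin.cons (cv (y i).1) (fun l => cv (z l).1) :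
        Fin (k + 1) → Fin (M + 1) → ℂ)) = Module.finrank (LK K u) (FF K (LK K u) F) := fun i => by
    have h1 := hTw (cv (y i).1) (q i) (y i).2.1 (by
      show (((y i).1 (q i) : F) : ℂ) ≠ 0
      rw [hq i]
      exact one_ne_zero)
    rwa [nrm_toE K (LK K u) F (y i).1 (q i) (hq i)] at h1
  choose A hA hS using fun i => (hT' i).1
  have hy0 : ∀ i, (y i).1 ≠ 0 := fun i h0 => by
    have h1 := hq i
    rw [h0] at h1
    exact zero_ne_one h1
  have hpy : ∀ i, (fun l => phi K (LK K u) F ((y i).1 l)) ≠ 0 := fun i h0 => by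
    have h1 := congrFun h0 (q i)
    simp only [hq i, map_one, Pi.zero_apply] at h1
    exact one_ne_zero h1
  have hNF0 : ∀ i, normForm (LK K u) (FF K (LK K u) F) (fun l => phi K (LK K u) F ((y i).1 l)) ≠ 0 :=
    fun i => (hNF (LK K u) (FF K (LK K u) F) M _).2.2.2.2 (hpy i)
  have hn : Algebra.norm (LK K u) (phi K (LK K u) F g) ≠ 0 := by
    rw [Ne, Algebra.norm_eq_zero_iff]
    exact (map_ne_zero_iff _ (phi K (LK K u) F).injective).mpr hg
  obtain ⟨b1, b2⟩ := hB K (LK K u) (FF K (LK K u) F) F (phi K (LK K u) F) (algebraMap K F)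
    (by ext c; rfl) Γ Γ' t g (fun i => (y i).1) hg hy0
    (fun v hv' => by
      have h1 := hv ⟨v, Or.inl hv'⟩
      simp only [cst, hV, if_pos hv'] at h1
      exact h1)
    (fun ι => by
      have h1 := hv ⟨absC.comp ι.injective, Or.inr ⟨ι, fun c => rfl⟩⟩
      simp only [cst, hV, if_neg (not_na ι)] at h1
      exact h1)
  refine ⟨u, Module.finrank (LK K u) (FF K (LK K u) F),
    Algebra.norm (LK K u) (phi K (LK K u) F g) * ∏ i, A i ^ a i, hu,
    mul_ne_zero hn (Finset.prod_ne_zero_iff.mpr fun i _ => zpow_ne_zero _ (hA i)),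
    Module.finrank_pos, fun i => (hT' i).2, ?_, ?_⟩
  · intro ω hω
    exact step hG ω a hn hA hNF0 hS (b1 ω hω)
  · intro ι
    have hg : ∀ P : MvPolynomial (Fin (M + 1)) (LK K u),
        gn absC (map ι P) = gn (absC.comp ι.injective) P :=
      (hG.2.1 (LK K u) (Fin (M + 1)) (absC.comp ι.injective)).2.2.2.2.2 ℂ ι absC fun _ => rfl
    have h1 := b2 ι
    simp only [hg] at h1 ⊢
    exact step hG (absC.comp ι.injective) a hn hA hNF0 hS h1

/-! ### global part -/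

section glob

variable {K : Type} [Field K] [Algebra K ℂ] {k M m : ℕ} {a : Fin (m + 1) → ℤ}
  {Γ : AbsoluteValue K ℝ → ℝ} {Γ' C₁ : ℝ} {t : ℤ} {u : Fin k × Fin (M + 1) → ℂ}
  {P : Fin (m + 1) → MvPolynomial (Fin (k + 1) × Fin (M + 1)) K} {δ : ℕ} {κ : LK K u}

/-- `κ` is a polynomial -/
theorem Loc.poly (h : Loc a Γ Γ' C₁ t u P δ κ) (hC : S_CPI)
    (hΓ : ∀ v : AbsoluteValue K ℝ, (∀ c, c ≠ 0 → v c = 1) → Γ v = 1)
    (hx : ∀ i, ∀ ω ∈ PiAbs K u, gn ω (sub K (uL K u) (P i)) = 1) :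
    ∃ R : MvPolynomial (Fin k × Fin (M + 1)) K, R ≠ 0 ∧ κ = aeval (uL K u) R := by
  obtain ⟨R, hR⟩ := (hC K k M u h.ind κ h.κ0).2 fun ω hω => by
    have h1 := h.na ω hω.1
    rw [hΓ _ hω.2.1, Real.log_one, mul_zero, mul_zero, add_zero,
      Finset.sum_eq_zero fun i _ => by rw [hx i ω hω, Real.log_one, mul_zero]] at h1
    exact (Real.log_nonpos_iff (ω.nonneg κ)).mp h1
  refine ⟨R, ?_, hR⟩
  rintro rfl
  rw [map_zero] at hR
  exact h.κ0 hR

/-- the value of `κ` -/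
theorem val_κ (hS : S_SUP) (hG : S_GNM) {R : MvPolynomial (Fin k × Fin (M + 1)) K}
    (hR : κ = aeval (uL K u) R) (ω : AbsoluteValue (LK K u) ℝ) :
    gn ω (sub K (uL K u) (up K R)) = ω κ := by
  rw [(hS K k M u).1 R, ← hR, (hG.2.1 (LK K u) (Fin (M + 1)) ω).2.1]

/-- the degree inequality -/
theorem Loc.deg (h : Loc a Γ Γ' C₁ t u P δ κ) (hD : S_CDE) (hS : S_SUP) (hG : S_GNM)
    (hΓ : ∀ v : AbsoluteValue K ℝ, (∀ c, c ≠ 0 → v c = 1) → Γ v = 1) (hP : ∀ i, P i ≠ 0)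
    {R : MvPolynomial (Fin k × Fin (M + 1)) K} (hR0 : R ≠ 0) (hR : κ = aeval (uL K u) R)
    (l : Fin k) : (bdeg l R : ℝ) ≤ ∑ i, (a i : ℝ) * (bdeg l.succ (P i) : ℝ) := by
  obtain ⟨ω, hω, htr, hd⟩ := hD K k M u h.ind l
  have h1 := h.na ω hω
  rw [← val_κ hS hG hR, hd (up K R) ((hS K k M u).2.2.2.2 R hR0), Real.log_exp, hΓ _ htr,
    Real.log_one, mul_zero, mul_zero, add_zero, (hS K k M u).2.1 R l] at h1
  refine h1.trans (le_of_eq (Finset.sum_congr rfl fun i _ => ?_))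
  rw [hd (P i) (hP i), Real.log_exp]

/-- finite places -/
theorem Loc.fin (h : Loc a Γ Γ' C₁ t u P δ κ) (hC : S_CGA) (hS : S_SUP) (hG : S_GNM)
    {R : MvPolynomial (Fin k × Fin (M + 1)) K} (hR : κ = aeval (uL K u) R)
    (v : AbsoluteValue K ℝ) (hv : IsNonarchimedean v) :
    Real.log (gn v (up K R)) ≤ ∑ i, (a i : ℝ) * Real.log (gn v (P i)) + δ * (t * Real.log (Γ v)) := by
  obtain ⟨ω, hω, hext, hg⟩ := hC K v k M u hv h.ind
  have h1 := h.na ω hω
  have h2 : ω.comp (algebraMap K (LK K u)).injective = v := by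
    ext c
    exact hext c
  rw [← val_κ hS hG hR, hg, h2] at h1
  simp only [hg] at h1
  exact h1

/-- infinite places -/
theorem Loc.inf [NumberField K] (h : Loc a Γ Γ' C₁ t u P δ κ) {c₀ : ℝ}
    (hA : ∀ (K : Type) [Field K] [NumberField K] [Algebra K ℂ]
      (u : Fin k × Fin (M + 1) → ℂ), AlgebraicIndependent K u → ∀ (σ : K →+* ℂ)
      (P : Fin (m + 1 + 1) → MvPolynomial (Fin (k + 1) × Fin (M + 1)) K) (D : ℕ), (∀ s, P s ≠ 0) →
      (∀ s, (P s).totalDegree ≤ D) → ∃ ι : LK K u →+* ℂ,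
        (∀ x : K, ι (algebraMap K (LK K u) x) = σ x) ∧
        ∀ s, |Real.log (gn absC (map ι (sub K (uL K u) (P s)))) -
          Real.log (gn absC (map σ (P s)))| ≤ c₀ * (1 + (D : ℝ)))
    (hS : S_SUP) (hG : S_GNM) (hP : ∀ i, P i ≠ 0)
    {R : MvPolynomial (Fin k × Fin (M + 1)) K} (hR0 : R ≠ 0) (hR : κ = aeval (uL K u) R)
    (v : AbsoluteValue K ℝ) (σ : K →+* ℂ) (hv : ∀ c, v c = ‖σ c‖) (D : ℕ)
    (hD : ∀ i, (P i).totalDegree ≤ D) (hDR : (up K R).totalDegree ≤ D) :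
    Real.log (gn v (up K R)) ≤ ∑ i, (a i : ℝ) * Real.log (gn v (P i)) +
      (δ * (t * Γ' + C₁) + (1 + ∑ i, |(a i : ℝ)|) * (c₀ * (1 + (D : ℝ)))) := by
  have hR1 : up K R ≠ 0 := (hS K k M u).2.2.2.2 R hR0
  obtain ⟨ι, hι, hest⟩ := hA K u h.ind σ (Fin.cons (up K R) P) D
    (fun s => Fin.cases hR1 hP s) (fun s => Fin.cases hDR hD s)
  have e0 := hest 0
  have e1 := fun i : Fin (m + 1) => hest i.succ
  have hgv : ∀ P : MvPolynomial (Fin (k + 1) × Fin (M + 1)) K, gn absC (map σ P) = gn v P :=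
    (hG.2.1 K (Fin (k + 1) × Fin (M + 1)) v).2.2.2.2.2 ℂ σ absC fun c => (hv c).symm
  have h1 := h.ar ι
  have h2 : gn absC (map ι (sub K (uL K u) (up K R))) = absC (ι κ) := by
    rw [(hG.2.1 (LK K u) (Fin (M + 1)) (absC.comp ι.injective)).2.2.2.2.2 ℂ ι absC (fun _ => rfl),
      val_κ hS hG hR]
    rfl
  rw [← h2] at h1
  simp only [Fin.cons_zero, Fin.cons_succ, hgv] at e0 e1
  have f0 := (abs_le.mp e0).1
  have f1 : ∑ i, (a i : ℝ) * Real.log (gn absC (map ι (sub K (uL K u) (P i)))) ≤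
      ∑ i, (a i : ℝ) * Real.log (gn v (P i)) + (∑ i, |(a i : ℝ)|) * (c₀ * (1 + (D : ℝ))) := by
    rw [Finset.sum_mul, ← Finset.sum_add_distrib]
    refine Finset.sum_le_sum fun i _ => ?_
    have h3 : (a i : ℝ) * (Real.log (gn absC (map ι (sub K (uL K u) (P i)))) - Real.log (gn v (P i))) ≤
        |(a i : ℝ)| * (c₀ * (1 + (D : ℝ))) := by
      refine (le_abs_self _).trans ?_
      rw [abs_mul]
      exact mul_le_mul_of_nonneg_left (e1 i) (abs_nonneg _)
    linarith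
  linarith

end glob

/-! ### sum over the places -/

section places

open Height

variable {K : Type} [Field K] [NumberField K]

theorem fs_log {σ : Type} (hL : S_LHD) {P : MvPolynomial σ K} (hP : P ≠ 0) :
    Function.HasFiniteSupport fun v : AdmissibleAbsValues.nonarchAbsVal (K := K) =>
      Real.log (gn v.1 P) := by
  refine ((hL K).1 σ P hP).2.subset fun v hv => ?_
  rw [Function.mem_support] at hv
  intro h1
  apply hv
  have h2 : gn v.1 P = 1 := h1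
  rw [h2, Real.log_one]

theorem fs_gam {Γ : AbsoluteValue K ℝ → ℝ} (hΓ : GoodGam K Γ) :
    Function.HasFiniteSupport fun v : AdmissibleAbsValues.nonarchAbsVal (K := K) =>
      Real.log (Γ v.1) := by
  have h1 := hΓ.2.2
  refine Set.Finite.subset (h1.preimage (Subtype.val_injective.injOn)) fun v hv => ?_
  rw [Function.mem_support] at hv
  refine ⟨v.2, fun h2 => hv ?_⟩
  rw [h2, Real.log_one]

theorem sum_places {σ : Type} (hL : S_LHD) {Γ : AbsoluteValue K ℝ → ℝ} (hΓ : GoodGam K Γ) {m : ℕ}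
    (a : Fin (m + 1) → ℤ) {P : Fin (m + 1) → MvPolynomial σ K} {U : MvPolynomial σ K}
    (hP : ∀ i, P i ≠ 0) (hU : U ≠ 0) {t : ℤ} {δ : ℕ} {e : ℝ}
    (hna : ∀ v ∈ AdmissibleAbsValues.nonarchAbsVal (K := K),
      Real.log (gn v U) ≤ ∑ i, (a i : ℝ) * Real.log (gn v (P i)) + δ * (t * Real.log (Γ v)))
    (har : ∀ v ∈ AdmissibleAbsValues.archAbsVal (K := K),
      Real.log (gn v U) ≤ ∑ i, (a i : ℝ) * Real.log (gn v (P i)) + e) :
    lh U ≤ ∑ i, (a i : ℝ) * lh (P i) + (Multiset.card (AdmissibleAbsValues.archAbsVal (K := K)) * e +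
      δ * (t * ∑ᶠ v : AdmissibleAbsValues.nonarchAbsVal (K := K), Real.log (Γ v.1))) := by
  have a1 := fun i => ((hL K).1 σ (P i) (hP i)).1
  have a3 := ((hL K).1 σ U hU).1
  have s1 := fun i => fs_log hL (hP i)
  have s3 := fs_log hL hU
  have s4 := fs_gam hΓ
  have s5 : ∀ i ∈ (Finset.univ : Finset (Fin (m + 1))),
      Function.HasFiniteSupport fun v : AdmissibleAbsValues.nonarchAbsVal (K := K) =>
        (a i : ℝ) * Real.log (gn v.1 (P i)) := fun i _ => Function.HasFiniteSupport.mul_right _ (s1 i)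
  have s6 : Function.HasFiniteSupport fun v : AdmissibleAbsValues.nonarchAbsVal (K := K) =>
      ∑ i, (a i : ℝ) * Real.log (gn v.1 (P i)) := by
    refine Set.Finite.subset (Set.finite_iUnion fun i => s5 i (Finset.mem_univ i)) fun v hv => ?_
    rw [Function.mem_support] at hv
    obtain ⟨i, -, hi⟩ := Finset.exists_ne_zero_of_sum_ne_zero hv
    exact Set.mem_iUnion.mpr ⟨i, hi⟩
  have s7 : Function.HasFiniteSupport fun v : AdmissibleAbsValues.nonarchAbsVal (K := K) =>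
      (δ : ℝ) * (t * Real.log (Γ v.1)) :=
    Function.HasFiniteSupport.mul_right _ (Function.HasFiniteSupport.mul_right _ s4)
  have f1 : (∑ᶠ v : AdmissibleAbsValues.nonarchAbsVal (K := K), Real.log (gn v.1 U)) ≤
      ∑ i, (a i : ℝ) * (∑ᶠ v : AdmissibleAbsValues.nonarchAbsVal (K := K), Real.log (gn v.1 (P i))) +
      δ * (t * ∑ᶠ v : AdmissibleAbsValues.nonarchAbsVal (K := K), Real.log (Γ v.1)) := by
    simp only [mul_finsum]
    rw [← finsum_sum_comm _ _ s5, ← finsum_add_distrib s6 s7]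
    exact finsum_le_finsum' s3 (s6.add s7) fun v => hna v.1 v.2
  have f2 : ((AdmissibleAbsValues.archAbsVal (K := K)).map fun v => Real.log (gn v U)).sum ≤
      ∑ i, (a i : ℝ) * ((AdmissibleAbsValues.archAbsVal (K := K)).map
        fun v => Real.log (gn v (P i))).sum +
        Multiset.card (AdmissibleAbsValues.archAbsVal (K := K)) * e := by
    simp only [← Multiset.sum_map_mul_left]
    rw [← Multiset.sum_map_sum, ← nsmul_eq_mul (Multiset.card _) e,
      ← Multiset.sum_replicate, ← Multiset.map_const', ← Multiset.sum_map_add]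
    exact Multiset.sum_map_le_sum_map _ _ har
  rw [a3]
  simp only [a1, mul_add, Finset.sum_add_distrib]
  linarith

end places

/-! ### assembly -/

section fin

open Height

theorem big_cons {K : Type} [Field K] [Algebra K ℂ] {k N : ℕ} {F : IntermediateField K ℂ}
    {z : Fin k → Fin (N + 1) → ℂ} {x : Fin (N + 1) → ℂ} (hz : ∀ i, Big K F (z i))
    (hx : Big K F x) (i : Fin (k + 1)) :
    Big K F ((Fin.cons x z : Fin (k + 1) → Fin (N + 1) → ℂ) i) :=
  Fin.cases hx hz i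

/-- facts on `cyc` -/
theorem cyc_facts (hR : S_RES) {K : Type} [Field K] [NumberField K] [Algebra K ℂ] {k N : ℕ}
    {F : IntermediateField K ℂ} {z : Fin k → Fin (N + 1) → ℂ} {x : Fin (N + 1) → ℂ}
    (hF : F.FG) (ht : Algebra.trdeg K F = k) (hz : ∀ i, Big K F (z i)) (hx : Big K F x)
    (u : Fin k × Fin (N + 1) → ℂ) :
    cyc K F (Fin.cons x z : Fin (k + 1) → Fin (N + 1) → ℂ) ≠ 0 ∧
      ∀ ω ∈ PiAbs K u, gn ω (sub K (uL K u)
        (cyc K F (Fin.cons x z : Fin (k + 1) → Fin (N + 1) → ℂ))) = 1 := by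
  obtain ⟨-, hirr, hdeg⟩ := hR K F k N (Fin.cons x z) hF ht (big_cons hz hx)
  obtain ⟨p, hp⟩ := Function.ne_iff.mp hx.1
  refine ⟨pow_ne_zero _ hirr.ne_zero, fun ω hω => ?_⟩
  exact hω.2.2 _ _ hirr ⟨p, hdeg 0 p hp⟩

theorem cons_cv {K : Type} [Field K] [Algebra K ℂ] {k M : ℕ} {F : IntermediateField K ℂ}
    (y : BV F M) (z : Fin k → BV F M) :
    (fun i => cv ((Fin.cons y z : Fin (k + 1) → BV F M) i).1) =
      (Fin.cons (cv y.1) (fun l => cv (z l).1) : Fin (k + 1) → Fin (M + 1) → ℂ) := by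
  funext i
  exact Fin.cases rfl (fun _ => rfl) i

theorem rel (hRL : S_RLOC) (hT : S_TOWER) (hCGA : S_CGA) (hCPI : S_CPI) (hCDE : S_CDE)
    (hARC : S_ARC) (hLHD : S_LHD) (hG : S_GNM) (hTDG : S_TDG) (hSUP : S_SUP) (hRES : S_RES)
    (hNF : S_NF) : S_REL := by
  intro K _ _ _ M k m a
  obtain ⟨C₁, hC₁, hloc⟩ := loc_of hRL hT hG hNF M m a
  obtain ⟨c₀, hc₀, hA⟩ := hARC k M (m + 1 + 1)
  obtain ⟨An, hAn⟩ : ∃ An : ℕ, An = ∑ i, (a i).natAbs := ⟨_, rfl⟩
  have hAR : ∑ i, |(a i : ℝ)| = An := by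
    rw [hAn]
    push_cast
    refine Finset.sum_congr rfl fun i _ => ?_
    rw [Nat.cast_natAbs, Int.cast_abs]
  have hAi : ∀ i, |(a i : ℝ)| ≤ An := fun i => by
    rw [← hAR]
    exact Finset.single_le_sum (f := fun i => |(a i : ℝ)|) (fun i _ => abs_nonneg _) (Finset.mem_univ i)
  obtain ⟨c, hc⟩ : ∃ c : ℝ, c = Multiset.card (AdmissibleAbsValues.archAbsVal (K := K)) := ⟨_, rfl⟩
  have hcc : 0 ≤ c := by
    rw [hc]
    exact Nat.cast_nonneg _
  refine ⟨c * (C₁ + (1 + An) * (c₀ * (2 + An))), by positivity, ?_⟩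
  intro F Γ Γ' t z y g hF ht hΓ hΓ' hg hv
  obtain ⟨u, δ, κ, h⟩ := hloc K k F Γ Γ' t z y g hF ht hg hv
  have hcf := fun i => cyc_facts hRES hF ht (fun l => (z l).2.1) (y i).2.1 u
  simp only [bd, Pool.Agent.Helper80.AD.E₀, cons_cv]
  obtain ⟨P, hP⟩ : ∃ P : Fin (m + 1) → MvPolynomial (Fin (k + 1) × Fin (M + 1)) K,
    P = fun i => cyc K F (Fin.cons (cv (y i).1) (fun l => cv (z l).1) :
      Fin (k + 1) → Fin (M + 1) → ℂ) := ⟨_, rfl⟩
  have hPi : ∀ i, cyc K F (Fin.cons (cv (y i).1) (fun l => cv (z l).1) :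
      Fin (k + 1) → Fin (M + 1) → ℂ) = P i := fun i => by rw [hP]
  rw [← hP] at h
  simp only [hPi] at hcf ⊢
  obtain ⟨R, hR0, hR⟩ := h.poly hCPI hΓ.2.1 fun i => (hcf i).2
  have hU0 : up K R ≠ 0 := (hSUP K k M u).2.2.2.2 R hR0
  have hdeg := fun l => h.deg hCDE hSUP hG hΓ.2.1 (fun i => (hcf i).1) hR0 hR l
  obtain ⟨T, hTd⟩ : ∃ T : ℕ, T = ∑ i, ∑ l : Fin k, bdeg l.succ (P i) := ⟨_, rfl⟩
  obtain ⟨S, hS⟩ : ∃ S : ℕ, S = δ + T := ⟨_, rfl⟩
  have hS1 : 1 ≤ S := by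
    have := h.δ1
    omega
  have hDi : ∀ i, (P i).totalDegree ≤ S := fun i => by
    refine ((hTDG K (k + 1) M (P i) (P i) (hcf i).1 (hcf i).1).2.2.2).trans ?_
    rw [Fin.sum_univ_succ, h.b i, hS, hTd]
    have h1 := Finset.single_le_sum (f := fun i => ∑ l : Fin k, bdeg l.succ (P i))
      (fun i _ => Nat.zero_le _) (Finset.mem_univ i)
    have h2 : ∑ l : Fin k, bdeg l.succ (P i) ≤ ∑ i, ∑ l : Fin k, bdeg l.succ (P i) := h1
    omega
  have hDR : (up K R).totalDegree ≤ An * S := by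
    refine ((hTDG K (k + 1) M (up K R) (up K R) hU0 hU0).2.2.2).trans ?_
    rw [Fin.sum_univ_succ, (hSUP K k M u).2.2.1 R, zero_add]
    have h1 : ((∑ l : Fin k, bdeg l.succ (up K R) : ℕ) : ℝ) ≤ An * S := by
      push_cast
      calc (∑ l : Fin k, (bdeg l.succ (up K R) : ℝ))
          ≤ ∑ l : Fin k, ∑ i, (An : ℝ) * (bdeg l.succ (P i) : ℝ) := by
            refine Finset.sum_le_sum fun l _ => ?_
            rw [(hSUP K k M u).2.1 R l]
            refine (hdeg l).trans (Finset.sum_le_sum fun i _ => ?_)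
            exact mul_le_mul_of_nonneg_right ((le_abs_self _).trans (hAi i)) (Nat.cast_nonneg _)
        _ = An * T := by
            rw [Finset.sum_comm, hTd]
            push_cast
            simp only [Finset.mul_sum]
        _ ≤ An * S := by
            refine mul_le_mul_of_nonneg_left ?_ (Nat.cast_nonneg _)
            rw [hS]
            push_cast
            linarith [(Nat.cast_nonneg δ : (0 : ℝ) ≤ δ)]
    exact_mod_cast h1
  have hSum := sum_places hLHD hΓ a (fun i => (hcf i).1) hU0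
    (fun v hv => h.fin hCGA hSUP hG hR v ((hLHD K).2.2.2.1 v hv))
    (fun v hv => by
      obtain ⟨σ, hσ⟩ := (hLHD K).2.1 v hv
      exact h.inf hA hSUP hG (fun i => (hcf i).1) hR0 hR v σ hσ ((1 + An) * S)
        (fun i => (hDi i).trans (by nlinarith)) (hDR.trans (by nlinarith)))
  rw [← hc, hAR] at hSum
  have hlU := (hLHD K).2.2.2.2 _ (up K R)
  refine ⟨?_, fun l => ?_⟩
  · have hSR : ((bdeg 0 (P 0) : ℝ) + ∑ i, ∑ l : Fin k, (bdeg l.succ (P i) : ℝ)) = S := by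
      rw [hS, hTd, h.b 0]
      push_cast
      ring
    rw [hSR, h.b 0]
    unfold gt
    rw [← hc]
    have hS1R : (1 : ℝ) ≤ S := by exact_mod_cast hS1
    have hδR : (δ : ℝ) ≤ S := by
      rw [hS]
      push_cast
      linarith [(Nat.cast_nonneg T : (0 : ℝ) ≤ T)]
    have hBR : (0 : ℝ) ≤ An := Nat.cast_nonneg _
    have e4 : (1 : ℝ) + (((1 + An) * S : ℕ) : ℝ) ≤ (2 + An) * S := by
      push_cast
      nlinarith
    have e5 : (1 + (An : ℝ)) * (c₀ * (1 + (((1 + An) * S : ℕ) : ℝ))) ≤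
        (1 + An) * (c₀ * ((2 + An) * S)) :=
      mul_le_mul_of_nonneg_left (mul_le_mul_of_nonneg_left e4 hc₀) (by positivity)
    have e6 : (δ : ℝ) * C₁ ≤ S * C₁ := mul_le_mul_of_nonneg_right hδR hC₁
    have e7 : c * ((δ : ℝ) * C₁ + (1 + (An : ℝ)) * (c₀ * (1 + (((1 + An) * S : ℕ) : ℝ)))) ≤
        c * (S * C₁ + (1 + An) * (c₀ * ((2 + An) * S))) :=
      mul_le_mul_of_nonneg_left (add_le_add e6 e5) hcc
    have e8 : c * (S * C₁ + (1 + An) * (c₀ * ((2 + An) * S))) =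
        c * (C₁ + (1 + An) * (c₀ * (2 + An))) * S := by ring
    rw [e8] at e7
    nlinarith [e7, hSum, hlU]
  · exact (Nat.cast_nonneg _).trans (hdeg l)

end fin

end Pool.Agent.Helper20.AD
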